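import Pool.Agent.Lib.H10.LPF.Smooth
import Pool.Agent.Lib.PNT.PNT

/-!
# Counting the integers not divisible by a prime of the middle range
-/

namespace Pool.Agent.Lib.H10.LPF

open Finset Filter Topology
open Pool.Agent.Lib.Sieve

theorem card_primesUpTo (n : ℕ) : (primesUpTo n).card = Nat.primeCounting n := by
  rw [Nat.primeCounting, Nat.primeCounting', Nat.count_eq_card_filter_range]
  rfl

/-- Eventually `π(n) ≤ 2 n / log n`. -/
theorem exists_pi_le : ∃ N : ℕ, 2 ≤ N ∧ ∀ n : ℕ, N ≤ n →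
    ((primesUpTo n).card : ℝ) ≤ 2 * n / Real.log n := by
  have h := Pool.Agent.Lib.PNT.primeCounting_nat_tendsto.eventually
    (gt_mem_nhds (show (1 : ℝ) < 2 by norm_num))
  obtain ⟨N, hN⟩ := eventually_atTop.mp h
  refine ⟨max N 2, le_max_right _ _, fun n hn => ?_⟩
  have h1 := hN n ((le_max_left _ _).trans hn)
  have hn2 : 2 ≤ n := (le_max_right _ _).trans hn
  have hn2' : (2 : ℝ) ≤ n := by exact_mod_cast hn2
  have hlog : 0 < Real.log n := Real.log_pos (by linarith)
  rw [card_primesUpTo, le_div_iff₀ hlog]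
  rw [div_lt_iff₀ (by linarith)] at h1
  exact h1.le

/-- Eventually `π(y) - π(y/2) ≥ y / (4 log y)`. -/
theorem exists_pi_sub_ge : ∃ N : ℕ, 2 ≤ N ∧ ∀ y : ℕ, N ≤ y →
    (y : ℝ) / (4 * Real.log y) ≤ ((primesUpTo y).filter (fun p => y / 2 < p)).card := by
  have h := (Pool.Agent.Lib.PNT.tendsto_piP_Ioc (P := fun _ => True) (s := 1 / 2) (t := 1)
    (by norm_num) (by norm_num) Pool.Agent.Lib.PNT.thetaP_true_tendsto).comp
      tendsto_natCast_atTop_atTop
  have h' := h.eventually (lt_mem_nhds (show (1 / 4 : ℝ) < 1 * (1 - 1 / 2) by norm_num))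
  obtain ⟨N, hN⟩ := eventually_atTop.mp h'
  refine ⟨max N 2, le_max_right _ _, fun y hy => ?_⟩
  have h1 := hN y ((le_max_left _ _).trans hy)
  have hy2 : 2 ≤ y := (le_max_right _ _).trans hy
  have hy2' : (2 : ℝ) ≤ y := by exact_mod_cast hy2
  have hlog : 0 < Real.log y := Real.log_pos (by linarith)
  simp only [Function.comp] at h1
  rw [Pool.Agent.Lib.PNT.piP_true, Pool.Agent.Lib.PNT.piP_true, one_mul, Nat.floor_natCast,
    lt_div_iff₀ (by linarith)] at h1
  have h2 : ⌊(1 / 2 : ℝ) * y⌋₊ = y / 2 := by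
    rw [show (1 / 2 : ℝ) * y = (y : ℝ) / (2 : ℕ) by push_cast; ring, Nat.floor_div_natCast]
    simp
  rw [h2, ← card_primesUpTo, ← card_primesUpTo] at h1
  have h3 : ((primesUpTo y).filter (fun p => y / 2 < p)).card
      + (primesUpTo (y / 2)).card = (primesUpTo y).card := by
    rw [← Finset.card_filter_add_card_filter_not (s := primesUpTo y) (fun p => y / 2 < p)]
    congr 1
    congr 1
    ext p
    rw [Finset.mem_filter, mem_primesUpTo, mem_primesUpTo]
    constructor
    · rintro ⟨a, b⟩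
      exact ⟨⟨a, by omega⟩, by omega⟩
    · rintro ⟨⟨a, _⟩, c⟩
      exact ⟨a, by omega⟩
  have h4 : (((primesUpTo y).filter (fun p => y / 2 < p)).card : ℝ)
      = (primesUpTo y).card - (primesUpTo (y / 2)).card := by
    rw [← h3]
    push_cast
    ring
  rw [h4, div_le_iff₀ (by positivity)]
  linarith

/-- Integers up to `U` with a prime factor exceeding `h`. -/
theorem large_le (U h : ℕ) :
    ((Finset.Icc 1 U).filter (fun n => ∃ q ∈ n.primeFactors, h < q)).card
      ≤ ∑ m ∈ Finset.Icc 1 (U / (h + 1)), (primesUpTo (U / m)).card := by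
  classical
  have hsub : (Finset.Icc 1 U).filter (fun n => ∃ q ∈ n.primeFactors, h < q)
      ⊆ (Finset.Icc 1 (U / (h + 1))).biUnion
        (fun m => (primesUpTo (U / m)).image (fun q => m * q)) := by
    intro n hn
    rw [Finset.mem_filter, Finset.mem_Icc] at hn
    obtain ⟨⟨hn1, hnU⟩, q, hq, hhq⟩ := hn
    have hq' := Nat.mem_primeFactors.mp hq
    obtain ⟨m, hm⟩ := hq'.2.1
    have hqpos := hq'.1.pos
    have hm0 : m ≠ 0 := by
      rintro rfl
      simp at hm
      omega
    have hm1 : 1 ≤ m := Nat.one_le_iff_ne_zero.mpr hm0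
    rw [Finset.mem_biUnion]
    refine ⟨m, Finset.mem_Icc.mpr ⟨hm1, ?_⟩, ?_⟩
    · rw [Nat.le_div_iff_mul_le (by omega)]
      calc m * (h + 1) ≤ m * q := Nat.mul_le_mul_left _ hhq
        _ = n := by rw [hm]; ring
        _ ≤ U := hnU
    · rw [Finset.mem_image]
      refine ⟨q, mem_primesUpTo.mpr ⟨hq'.1, ?_⟩, ?_⟩
      · rw [Nat.le_div_iff_mul_le (by omega)]
        rw [← hm]
        exact hnU
      · rw [hm]; ring
  refine (Finset.card_le_card hsub).trans ?_
  refine Finset.card_biUnion_le.trans ?_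
  exact Finset.sum_le_sum fun m _ => Finset.card_image_le

/-- The analytic bound for `large_le`. -/
theorem large_bound (N : ℕ) (hN2 : 2 ≤ N) (hN : ∀ n : ℕ, N ≤ n →
    ((primesUpTo n).card : ℝ) ≤ 2 * n / Real.log n) (U h : ℕ) (hh : N ≤ h) (hU : h < U) :
    (((Finset.Icc 1 U).filter (fun n => ∃ q ∈ n.primeFactors, h < q)).card : ℝ)
      ≤ 2 * U / Real.log h * (1 + Real.log ((U : ℝ) / h)) := by
  have hh2 : (2 : ℝ) ≤ h := by
    have : 2 ≤ h := by omega
    exact_mod_cast this
  have hlogh : 0 < Real.log h := Real.log_pos (by linarith)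
  have hh0 : (0 : ℝ) < h := by linarith
  have h1 : (((Finset.Icc 1 U).filter (fun n => ∃ q ∈ n.primeFactors, h < q)).card : ℝ)
      ≤ ∑ m ∈ Finset.Icc 1 (U / (h + 1)), ((primesUpTo (U / m)).card : ℝ) := by
    exact_mod_cast large_le U h
  have hM : 1 ≤ U / (h + 1) := by
    rw [Nat.le_div_iff_mul_le (by omega)]
    omega
  refine h1.trans ?_
  have h2 : ∀ m ∈ Finset.Icc 1 (U / (h + 1)), ((primesUpTo (U / m)).card : ℝ)
      ≤ 2 * U / Real.log h * ((m : ℝ)⁻¹) := by
    intro m hm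
    rw [Finset.mem_Icc] at hm
    have hm0 : (0 : ℝ) < m := by
      have : 0 < m := by omega
      exact_mod_cast this
    have h3 : h + 1 ≤ U / m := by
      rw [Nat.le_div_iff_mul_le (by omega)]
      have := (Nat.le_div_iff_mul_le (show 0 < h + 1 by omega)).mp hm.2
      linarith [mul_comm m (h + 1)]
    have h4 := hN (U / m) (by omega)
    have h5 : (h : ℝ) ≤ ((U / m : ℕ) : ℝ) := by
      have : h ≤ U / m := by omega
      exact_mod_cast this
    have h6 : Real.log h ≤ Real.log ((U / m : ℕ) : ℝ) := Real.log_le_log hh0 h5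
    have h7 : ((U / m : ℕ) : ℝ) ≤ U / m := Nat.cast_div_le
    calc ((primesUpTo (U / m)).card : ℝ) ≤ 2 * ((U / m : ℕ) : ℝ) / Real.log ((U / m : ℕ) : ℝ) := h4
      _ ≤ 2 * (U / m) / Real.log h := by
          apply div_le_div₀ (by positivity) (by linarith) hlogh h6
      _ = 2 * U / Real.log h * ((m : ℝ)⁻¹) := by
          field_simp
  refine (Finset.sum_le_sum h2).trans ?_
  rw [← Finset.mul_sum]
  apply mul_le_mul_of_nonneg_left _ (by positivity)
  have h8 := harmonic_le_one_add_log (U / (h + 1))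
  rw [harmonic_eq_sum_Icc] at h8
  push_cast at h8
  refine h8.trans ?_
  have h9 : ((U / (h + 1) : ℕ) : ℝ) ≤ (U : ℝ) / h := by
    calc ((U / (h + 1) : ℕ) : ℝ) ≤ (U : ℝ) / ((h + 1 : ℕ) : ℝ) := Nat.cast_div_le
      _ ≤ (U : ℝ) / h := by
          apply div_le_div_of_nonneg_left (by positivity) hh0
          push_cast
          linarith
  have h10 : (0 : ℝ) < ((U / (h + 1) : ℕ) : ℝ) := by exact_mod_cast hM
  have h11 := Real.log_le_log h10 h9
  linarith

/-- The sieved set: only smooth integers and multiples of large primes remain. -/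
theorem sieved_sub (U z h : ℕ) :
    (Finset.Icc 1 U).filter (fun s => ∀ p ∈ (primesUpTo h).filter (fun p => z < p), ¬ p ∣ s)
      ⊆ (Finset.Icc 1 U).filter (fun n => ∀ p ∈ n.primeFactors, p ≤ z)
        ∪ (Finset.Icc 1 U).filter (fun n => ∃ q ∈ n.primeFactors, h < q) := by
  intro s hs
  rw [Finset.mem_filter] at hs
  rw [Finset.mem_union, Finset.mem_filter, Finset.mem_filter]
  by_cases hq : ∃ q ∈ s.primeFactors, h < q
  · exact Or.inr ⟨hs.1, hq⟩
  · left
    refine ⟨hs.1, fun p hp => ?_⟩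
    push Not at hq
    have h1 := hq p hp
    by_contra hcon
    push Not at hcon
    have hp' := Nat.mem_primeFactors.mp hp
    exact hs.2 p (by
      rw [Finset.mem_filter, mem_primesUpTo]
      exact ⟨⟨hp'.1, h1⟩, hcon⟩) hp'.2.1

end Pool.Agent.Lib.H10.LPF
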