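import Mathlib

/-!
# Covering finite sets of integers by residue classes

The combinatorial part of the Erdős and Rankin construction: a greedy choice of
residue classes, the class zero, and one prime for each remaining integer.
-/

namespace Pool.Agent.Lib.H10.LPF

open Finset

/-- Some class modulo `p` contains at least the average number of elements. -/
theorem exists_class (S : Finset ℕ) (p : ℕ) (hp : 0 < p) :
    ∃ a : ℕ, S.card ≤ p * (S.filter (fun s => s % p = a)).card := by
  by_contra hcon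
  push Not at hcon
  have h1 : S.card = ∑ a ∈ Finset.range p, (S.filter (fun s => s % p = a)).card :=
    Finset.card_eq_sum_card_fiberwise (fun s _ => Finset.mem_coe.mpr
      (Finset.mem_range.mpr (Nat.mod_lt s hp)))
  have h2 : ∑ a ∈ Finset.range p, p * (S.filter (fun s => s % p = a)).card
      < ∑ _a ∈ Finset.range p, S.card := by
    apply Finset.sum_lt_sum_of_nonempty
    · exact ⟨0, Finset.mem_range.mpr hp⟩
    · intro a _
      exact hcon a
  rw [← Finset.mul_sum, ← h1, Finset.sum_const, Finset.card_range, smul_eq_mul] at h2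
  exact lt_irrefl _ h2

/-- Greedy choice of one class for each prime of a finite set. -/
theorem greedy (S : Finset ℕ) (Q : Finset ℕ) (hQ : ∀ p ∈ Q, 2 ≤ p) :
    ∃ r : ℕ → ℕ, ((S.filter (fun s => ∀ p ∈ Q, s % p ≠ r p)).card : ℝ)
      ≤ S.card * ∏ p ∈ Q, (1 - 1 / (p : ℝ)) := by
  classical
  induction Q using Finset.induction_on with
  | empty =>
    refine ⟨fun _ => 0, ?_⟩
    simp
  | insert q Q hq ih =>
    obtain ⟨r, hr⟩ := ih (fun p hp => hQ p (Finset.mem_insert_of_mem hp))
    have hq2 : 2 ≤ q := hQ q (Finset.mem_insert_self _ _)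
    set T := S.filter (fun s => ∀ p ∈ Q, s % p ≠ r p) with hT
    obtain ⟨a, ha⟩ := exists_class T q (by omega)
    refine ⟨fun p => if p = q then a else r p, ?_⟩
    have hsub : S.filter (fun s => ∀ p ∈ insert q Q, s % p ≠ (if p = q then a else r p))
        ⊆ T.filter (fun s => ¬ (s % q = a)) := by
      intro s hs
      rw [Finset.mem_filter] at hs
      rw [Finset.mem_filter, hT, Finset.mem_filter]
      refine ⟨⟨hs.1, fun p hp => ?_⟩, ?_⟩
      · have h := hs.2 p (Finset.mem_insert_of_mem hp)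
        have hne : p ≠ q := fun h => hq (h ▸ hp)
        rwa [if_neg hne] at h
      · have h := hs.2 q (Finset.mem_insert_self _ _)
        rwa [if_pos rfl] at h
    have hcard : ((T.filter (fun s => ¬ (s % q = a))).card : ℝ) ≤ T.card * (1 - 1 / (q : ℝ)) := by
      have h1 := Finset.card_filter_add_card_filter_not (s := T) (fun s => s % q = a)
      have h2 : ((T.filter (fun s => ¬ (s % q = a))).card : ℝ)
          = T.card - (T.filter (fun s => s % q = a)).card := by
        rw [← h1]
        push_cast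
        ring
      have hq0 : (0 : ℝ) < q := by
        have : 0 < q := by omega
        exact_mod_cast this
      have h3 : (T.card : ℝ) / q ≤ (T.filter (fun s => s % q = a)).card := by
        rw [div_le_iff₀ hq0, mul_comm]
        exact_mod_cast ha
      rw [h2, mul_sub, mul_one, mul_one_div]
      linarith
    rw [Finset.prod_insert hq]
    have hq1 : (0 : ℝ) ≤ 1 - 1 / (q : ℝ) := by
      have : (2 : ℝ) ≤ q := by exact_mod_cast hq2
      rw [sub_nonneg, div_le_one (by linarith)]
      linarith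
    calc _ ≤ ((T.filter (fun s => ¬ (s % q = a))).card : ℝ) := by
          exact_mod_cast Finset.card_le_card hsub
      _ ≤ T.card * (1 - 1 / (q : ℝ)) := hcard
      _ ≤ (S.card * ∏ p ∈ Q, (1 - 1 / (p : ℝ))) * (1 - 1 / (q : ℝ)) :=
          mul_le_mul_of_nonneg_right hr hq1
      _ = _ := by ring

/-- One prime for each element. -/
theorem matching (S Q : Finset ℕ) (h : S.card ≤ Q.card) :
    ∃ r : ℕ → ℕ, ∀ s ∈ S, ∃ p ∈ Q, s % p = r p := by
  classical
  obtain ⟨Q', hQ', hcard⟩ := Finset.exists_subset_card_eq h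
  let e := Finset.equivOfCardEq hcard
  refine ⟨fun p => if hp : p ∈ Q' then (e ⟨p, hp⟩ : ℕ) % p else 0, fun s hs => ?_⟩
  refine ⟨(e.symm ⟨s, hs⟩ : ℕ), hQ' (e.symm ⟨s, hs⟩).2, ?_⟩
  simp

/-- The covering: greedy classes for `Q1`, class zero for `Q2`, and one prime of `Q3` for each
remaining integer. -/
theorem cover (S Q1 Q2 Q3 : Finset ℕ) (h1 : ∀ p ∈ Q1, 2 ≤ p) (h12 : Disjoint Q1 Q2)
    (h13 : Disjoint Q1 Q3) (h23 : Disjoint Q2 Q3)
    (h : ((S.filter (fun s => ∀ p ∈ Q2, ¬ p ∣ s)).card : ℝ) * ∏ p ∈ Q1, (1 - 1 / (p : ℝ))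
      ≤ Q3.card) :
    ∃ r : ℕ → ℕ, ∀ s ∈ S, ∃ p ∈ Q1 ∪ Q2 ∪ Q3, s % p = r p := by
  classical
  set S0 := S.filter (fun s => ∀ p ∈ Q2, ¬ p ∣ s) with hS0
  obtain ⟨r1, hr1⟩ := greedy S0 Q1 h1
  set S1 := S0.filter (fun s => ∀ p ∈ Q1, s % p ≠ r1 p) with hS1
  have hcard : S1.card ≤ Q3.card := by
    have : (S1.card : ℝ) ≤ Q3.card := hr1.trans h
    exact_mod_cast this
  obtain ⟨r3, hr3⟩ := matching S1 Q3 hcard
  refine ⟨fun p => if p ∈ Q1 then r1 p else if p ∈ Q3 then r3 p else 0, fun s hs => ?_⟩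
  by_cases hs0 : s ∈ S0
  · by_cases hs1 : s ∈ S1
    · obtain ⟨p, hp, hsp⟩ := hr3 s hs1
      refine ⟨p, by simp [hp], ?_⟩
      have hp1 : p ∉ Q1 := fun h => (Finset.disjoint_left.mp h13 h) hp
      simp only [hp1, hp, if_true, if_false]
      exact hsp
    · rw [hS1, Finset.mem_filter] at hs1
      push Not at hs1
      obtain ⟨p, hp, hsp⟩ := hs1 hs0
      refine ⟨p, by simp [hp], ?_⟩
      simp only [hp, if_true]
      exact hsp
  · rw [hS0, Finset.mem_filter] at hs0
    push Not at hs0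
    obtain ⟨p, hp, hsp⟩ := hs0 hs
    refine ⟨p, by simp [hp], ?_⟩
    have hp1 : p ∉ Q1 := fun h => (Finset.disjoint_left.mp h12 h) hp
    have hp3 : p ∉ Q3 := Finset.disjoint_left.mp h23 hp
    simp only [hp1, hp3, if_false]
    exact Nat.mod_eq_zero_of_dvd hsp

end Pool.Agent.Lib.H10.LPF
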