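import Pool.Agent.Lib.H10.LPF.Cover
import Pool.Agent.Lib.H10.LPF.Count

/-!
# Covering at one scale
-/

namespace Pool.Agent.Lib.H10.LPF

open Finset Filter Topology
open Pool.Agent.Lib.Sieve
open Pool.Agent.Lib.Helper57

/-- The length of the interval covered at the scale `y = 3 ^ w`. -/
noncomputable def len (w : ℕ) : ℝ :=
  (3 : ℝ) ^ w * (w * Real.log 3) / (512000 * Real.log w ^ 3)

/-- The numerical conditions on `w`. -/
structure Good (N : ℕ) (w : ℕ) : Prop where
  hl : 3 ≤ Real.log w
  hL : 512000 * Real.log w ^ 3 ≤ w * Real.log 3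
  hw : 64 * Real.exp 40 * (w : ℝ) ^ 3 ≤ (w : ℝ) ^ 8
  hN : N ≤ 3 ^ w / 2

theorem eventually_good (N : ℕ) : ∀ᶠ w : ℕ in atTop, Good N w := by
  have h1 : Tendsto (fun w : ℕ => Real.log w) atTop atTop :=
    Real.tendsto_log_atTop.comp tendsto_natCast_atTop_atTop
  have h2 : ∀ᶠ x : ℝ in atTop, 512000 * Real.log x ^ 3 ≤ x * Real.log 3 := by
    have h3 := (Real.isLittleO_pow_log_id_atTop (n := 3)).def
      (show (0 : ℝ) < Real.log 3 / 512000 by
        have : 0 < Real.log 3 := Real.log_pos (by norm_num)
        positivity)
    filter_upwards [h3, eventually_ge_atTop 1] with x hx hx1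
    have hlog : 0 ≤ Real.log x := Real.log_nonneg hx1
    rw [Real.norm_of_nonneg (by positivity), id, Real.norm_of_nonneg (by linarith)] at hx
    linarith
  have h4 : ∀ᶠ x : ℝ in atTop, 64 * Real.exp 40 * x ^ 3 ≤ x ^ 8 := by
    filter_upwards [eventually_ge_atTop (max 1 (64 * Real.exp 40))] with x hx
    have hx1 : 1 ≤ x := (le_max_left _ _).trans hx
    have hx2 : 64 * Real.exp 40 ≤ x := (le_max_right _ _).trans hx
    have hx0 : 0 < x := by linarith
    calc 64 * Real.exp 40 * x ^ 3 ≤ x * x ^ 3 := mul_le_mul_of_nonneg_right hx2 (by positivity)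
      _ = x ^ 4 := by ring
      _ ≤ x ^ 8 := pow_le_pow_right₀ hx1 (by norm_num)
  have h5 : ∀ᶠ w : ℕ in atTop, N ≤ 3 ^ w / 2 := by
    filter_upwards [eventually_ge_atTop (2 * N)] with w hw
    rw [Nat.le_div_iff_mul_le (by norm_num)]
    have : w < 3 ^ w := Nat.lt_pow_self (by norm_num)
    omega
  filter_upwards [h1.eventually_ge_atTop 3, tendsto_natCast_atTop_atTop.eventually h2,
    tendsto_natCast_atTop_atTop.eventually h4, h5] with w a b c d
  exact ⟨a, b, c, d⟩

/-- Basic consequences of `Good`. -/
theorem Good.basic {N w : ℕ} (h : Good N w) : 2 ≤ w ∧ (2 : ℝ) ≤ w := by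
  have h1 : (2 : ℝ) ≤ w := by
    by_contra hcon
    push Not at hcon
    have h2 : Real.log w ≤ Real.log 2 := by
      by_cases hw : w = 0
      · subst hw
        simp
        positivity
      · apply Real.log_le_log _ hcon.le
        have : 0 < w := Nat.pos_of_ne_zero hw
        exact_mod_cast this
    have := h.hl
    have := Real.log_two_lt_d9
    linarith
  exact ⟨by exact_mod_cast h1, h1⟩

theorem log_three_bounds : 1 ≤ Real.log 3 ∧ Real.log 3 ≤ 2 := by
  constructor
  · rw [Real.le_log_iff_exp_le (by norm_num)]
    have := Real.exp_one_lt_d9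
    linarith
  · have h1 : Real.log 3 ≤ Real.log 4 := Real.log_le_log (by norm_num) (by norm_num)
    have h2 : Real.log 4 = 2 * Real.log 2 := by
      rw [show (4 : ℝ) = 2 ^ 2 by norm_num, Real.log_pow]; norm_num
    have h3 := Real.log_two_lt_d9
    linarith

/-- The product over the primes of the greedy step. -/
theorem prod_greedy_le (w z : ℕ) (hw : 2 ≤ w) (hwz : w ≤ z) :
    ∏ p ∈ (primesUpTo z).filter (fun p => w < p), (1 - 1 / (p : ℝ))
      ≤ 1 / Real.log z * (500 * Real.log w) := by
  have h1 : ∏ p ∈ primesUpTo z, (1 - 1 / (p : ℝ))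
      = (∏ p ∈ (primesUpTo z).filter (fun p => w < p), (1 - 1 / (p : ℝ)))
        * ∏ p ∈ primesUpTo w, (1 - 1 / (p : ℝ)) := by
    rw [← Finset.prod_filter_mul_prod_filter_not (primesUpTo z) (fun p => w < p)]
    congr 1
    apply Finset.prod_congr _ fun _ _ => rfl
    ext p
    rw [Finset.mem_filter, mem_primesUpTo, mem_primesUpTo]
    constructor
    · rintro ⟨⟨a, _⟩, c⟩
      exact ⟨a, by omega⟩
    · rintro ⟨a, b⟩
      exact ⟨⟨a, by omega⟩, by omega⟩
  have hpos : 0 < ∏ p ∈ primesUpTo w, (1 - 1 / (p : ℝ)) := by
    apply Finset.prod_pos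
    intro p hp
    have hp1 : (1 : ℝ) < p := by exact_mod_cast (mem_primesUpTo.mp hp).1.one_lt
    rw [sub_pos, div_lt_one (by linarith)]
    exact hp1
  have h2 := prod_one_sub_inv_le z (by omega)
  have h3 := prod_one_sub_inv_inv_le w hw
  rw [Finset.prod_inv_distrib] at h3
  have h4 : ∏ p ∈ (primesUpTo z).filter (fun p => w < p), (1 - 1 / (p : ℝ))
      = (∏ p ∈ primesUpTo z, (1 - 1 / (p : ℝ))) * (∏ p ∈ primesUpTo w, (1 - 1 / (p : ℝ)))⁻¹ := by
    rw [h1]
    field_simp
  rw [h4]
  have hz1 : (1 : ℝ) ≤ z := by
    have : 1 ≤ z := by omega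
    exact_mod_cast this
  apply mul_le_mul h2 h3 (inv_nonneg.mpr hpos.le)
  have := Real.log_nonneg hz1
  positivity

/-- **One scale.** -/
theorem exists_scale : ∃ N0 : ℕ, ∀ w : ℕ, Good N0 w →
    ∃ r : ℕ → ℕ, ∀ s : ℕ, 1 ≤ s → (s : ℝ) ≤ len w →
      ∃ p : ℕ, p.Prime ∧ w < p ∧ p ≤ 3 ^ w ∧ s % p = r p := by
  obtain ⟨N1, hN12, hN1⟩ := exists_pi_le
  obtain ⟨N2, hN22, hN2⟩ := exists_pi_sub_ge
  refine ⟨max N1 N2, fun w hgood => ?_⟩
  obtain ⟨hw2, hw2'⟩ := hgood.basic
  obtain ⟨hlog3, hlog3'⟩ := log_three_bounds
  have hell := hgood.hl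
  have hbig := hgood.hL
  set ell := Real.log w with hell_def
  set L := (w : ℝ) * Real.log 3 with hLdef
  set y : ℕ := 3 ^ w with hy
  have hL0 : 0 < L := by positivity
  have hyL : Real.log (y : ℝ) = L := by
    rw [hy]
    push_cast
    rw [Real.log_pow]
  have hy1 : 1 ≤ y := Nat.one_le_pow _ _ (by norm_num)
  have hy9 : 9 ≤ y := by
    calc 9 = 3 ^ 2 := by norm_num
      _ ≤ 3 ^ w := Nat.pow_le_pow_right (by norm_num) hw2
  have hy0 : (0 : ℝ) < y := by exact_mod_cast hy1
  -- the ranges
  set h : ℕ := y / 2 with hh
  set z : ℕ := ⌊Real.exp (L / (8 * ell))⌋₊ with hz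
  set U : ℕ := ⌊len w⌋₊ with hU
  have hlen : len w = y * L / (512000 * ell ^ 3) := by
    rw [len, hy]
    push_cast
    rfl
  have hell3 : 0 < 512000 * ell ^ 3 := by positivity
  have h27 : (27 : ℝ) ≤ ell ^ 3 := by
    calc (27 : ℝ) = 3 ^ 3 := by norm_num
      _ ≤ ell ^ 3 := pow_le_pow_left₀ (by norm_num) hell 3
  -- `U ≥ y`
  have hyU' : (y : ℝ) ≤ len w := by
    rw [hlen, le_div_iff₀ hell3]
    exact mul_le_mul_of_nonneg_left hbig hy0.le
  have hyU : y ≤ U := Nat.le_floor hyU'
  have hUlen : (U : ℝ) ≤ len w := Nat.floor_le (by linarith)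
  have hUyL : (U : ℝ) ≤ y * L := by
    refine hUlen.trans ?_
    rw [hlen, div_le_iff₀ hell3]
    have : y * L * 1 ≤ y * L * (512000 * ell ^ 3) :=
      mul_le_mul_of_nonneg_left (by linarith) (by positivity)
    linarith
  have hU0 : (0 : ℝ) < U := lt_of_lt_of_le hy0 (by exact_mod_cast hyU)
  -- facts about `L` and `ell`
  have hell2 : ell ^ 2 * 3 ≤ ell ^ 3 := by nlinarith [sq_nonneg ell]
  have hL16 : 16 * ell ^ 2 ≤ L := by nlinarith [sq_nonneg ell]
  have hL80 : 80 * ell ≤ L := by nlinarith [sq_nonneg ell]
  have hLell : 2 * ell ≤ L / (8 * ell) := by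
    rw [le_div_iff₀ (by positivity)]
    nlinarith
  -- `z`
  have hzle : (z : ℝ) ≤ Real.exp (L / (8 * ell)) := Nat.floor_le (Real.exp_pos _).le
  have hzge : Real.exp (L / (8 * ell)) - 1 < z := by
    have := Nat.lt_floor_add_one (Real.exp (L / (8 * ell)))
    linarith
  have hwexp : (w : ℝ) ^ 2 ≤ Real.exp (L / (8 * ell)) := by
    calc (w : ℝ) ^ 2 = Real.exp (2 * ell) := by
          rw [two_mul, Real.exp_add, hell_def, Real.exp_log (by linarith), sq]
      _ ≤ _ := Real.exp_le_exp.mpr hLell
  have hwz : w ≤ z := by
    apply Nat.le_floor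
    nlinarith
  have hz2 : 2 ≤ z := hw2.trans hwz
  have hz0 : (0 : ℝ) < z := by
    have : 0 < z := by omega
    exact_mod_cast this
  have hlogz_le : Real.log z ≤ L / (8 * ell) := by
    have := Real.log_le_log hz0 hzle
    rwa [Real.log_exp] at this
  have hlogz_ge : L / (16 * ell) ≤ Real.log z := by
    have h1 : Real.exp (L / (8 * ell)) / 2 ≤ z := by
      have : 2 ≤ Real.exp (L / (8 * ell)) := by nlinarith
      linarith
    have h2 := Real.log_le_log (by positivity) h1
    rw [Real.log_div (Real.exp_pos _).ne' (by norm_num), Real.log_exp] at h2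
    have h3 : L / (8 * ell) = L / (16 * ell) + L / (16 * ell) := by
      field_simp
      ring
    have h4 : Real.log 2 ≤ L / (16 * ell) := by
      have h5 := Real.log_two_lt_d9
      have h6 : ell ≤ L / (16 * ell) := by
        rw [le_div_iff₀ (by positivity)]
        nlinarith
      linarith
    linarith
  have hlogz_pos : 0 < Real.log z := lt_of_lt_of_le (by positivity) hlogz_ge
  -- `h`
  have hh3 : (y : ℝ) / 3 ≤ h := by
    have : y ≤ 3 * h := by omega
    have h' : (y : ℝ) ≤ 3 * h := by exact_mod_cast this
    linarith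
  have hlogh : L / 2 ≤ Real.log h := by
    have h1 := Real.log_le_log (by positivity) hh3
    rw [Real.log_div hy0.ne' (by norm_num), hyL] at h1
    have : 2 * Real.log 3 ≤ L := by
      rw [hLdef]
      exact mul_le_mul_of_nonneg_right hw2' (by linarith)
    linarith
  have hh0 : (0 : ℝ) < h := lt_of_lt_of_le (by positivity) hh3
  have hzh : z ≤ h := by
    have h1 : Real.log z ≤ Real.log h := by
      refine hlogz_le.trans (le_trans ?_ hlogh)
      rw [div_le_div_iff₀ (by positivity) (by norm_num)]
      nlinarith
    have := (Real.log_le_log_iff hz0 hh0).mp h1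
    exact_mod_cast this
  have hhN1 : N1 ≤ h := (le_max_left _ _).trans hgood.hN
  have hyN2 : N2 ≤ y := by
    have := (le_max_right N1 N2).trans hgood.hN
    omega
  -- the covering
  have hcover := cover (Finset.Icc 1 U) ((primesUpTo z).filter (fun p => w < p))
    ((primesUpTo h).filter (fun p => z < p)) ((primesUpTo y).filter (fun p => y / 2 < p))
    (by
      intro p hp
      exact (mem_primesUpTo.mp (Finset.mem_filter.mp hp).1).1.two_le)
    (by
      rw [Finset.disjoint_left]
      intro p hp hp'
      have h1 := (mem_primesUpTo.mp (Finset.mem_filter.mp hp).1).2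
      have h2 := (Finset.mem_filter.mp hp').2
      omega)
    (by
      rw [Finset.disjoint_left]
      intro p hp hp'
      have h1 := (mem_primesUpTo.mp (Finset.mem_filter.mp hp).1).2
      have h2 := (Finset.mem_filter.mp hp').2
      omega)
    (by
      rw [Finset.disjoint_left]
      intro p hp hp'
      have h1 := (mem_primesUpTo.mp (Finset.mem_filter.mp hp).1).2
      have h2 := (Finset.mem_filter.mp hp').2
      omega)
    (by
      set Pi1 := ∏ p ∈ (primesUpTo z).filter (fun p => w < p), (1 - 1 / (p : ℝ)) with hPi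
      have hPi0 : 0 ≤ Pi1 := by
        apply Finset.prod_nonneg
        intro p hp
        have hp1 : (1 : ℝ) < p := by
          exact_mod_cast (mem_primesUpTo.mp (Finset.mem_filter.mp hp).1).1.one_lt
        rw [sub_nonneg, div_le_one (by linarith)]
        exact hp1.le
      have hPi1 : Pi1 ≤ 1 := by
        apply Finset.prod_le_one
        · intro p hp
          have hp1 : (1 : ℝ) < p := by
            exact_mod_cast (mem_primesUpTo.mp (Finset.mem_filter.mp hp).1).1.one_lt
          rw [sub_nonneg, div_le_one (by linarith)]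
          exact hp1.le
        · intro p hp
          have : (0 : ℝ) ≤ 1 / p := by positivity
          linarith
      have hPi2 : Pi1 ≤ 8000 * ell ^ 2 / L := by
        refine (prod_greedy_le w z hw2 hwz).trans ?_
        calc 1 / Real.log z * (500 * ell) ≤ 1 / (L / (16 * ell)) * (500 * ell) := by
              apply mul_le_mul_of_nonneg_right _ (by positivity)
              exact one_div_le_one_div_of_le (by positivity) hlogz_ge
          _ = 8000 * ell ^ 2 / L := by
              field_simp
              ring
      -- the number of sieved integers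
      have hcard : (((Finset.Icc 1 U).filter
          (fun s => ∀ p ∈ (primesUpTo h).filter (fun p => z < p), ¬ p ∣ s)).card : ℝ)
          ≤ y / (8 * L) + 8 * U * ell / L := by
        have h1 : (((Finset.Icc 1 U).filter
          (fun s => ∀ p ∈ (primesUpTo h).filter (fun p => z < p), ¬ p ∣ s)).card : ℝ)
            ≤ (((Finset.Icc 1 U).filter (fun n => ∀ p ∈ n.primeFactors, p ≤ z)).card : ℝ)
            + (((Finset.Icc 1 U).filter (fun n => ∃ q ∈ n.primeFactors, h < q)).card : ℝ) := by
          exact_mod_cast (Finset.card_le_card (sieved_sub U z h)).trans (Finset.card_union_le _ _)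
        refine h1.trans (add_le_add ?_ ?_)
        · -- smooth integers
          have h2 := smooth_le z U hz2 (8 * ell / L) (by positivity)
            (by
              rw [div_le_div_iff₀ hL0 (by norm_num)]
              linarith)
            (by
              calc 8 * ell / L * Real.log z ≤ 8 * ell / L * (L / (8 * ell)) :=
                    mul_le_mul_of_nonneg_left hlogz_le (by positivity)
                _ = 1 := by field_simp)
          refine h2.trans ?_
          have h3 : (U : ℝ) ^ (1 - 8 * ell / L) ≤ y * L * (1 / (w : ℝ) ^ 8) := by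
            rw [Real.rpow_sub hU0, Real.rpow_one]
            have h4 : (w : ℝ) ^ 8 ≤ (U : ℝ) ^ (8 * ell / L) := by
              calc (w : ℝ) ^ 8 = Real.exp (8 * ell) := by
                    rw [hell_def, show (8 : ℝ) * Real.log w = ((8 : ℕ) : ℝ) * Real.log w by norm_num,
                      Real.exp_nat_mul, Real.exp_log (by linarith)]
                _ = (y : ℝ) ^ (8 * ell / L) := by
                    rw [Real.rpow_def_of_pos hy0, hyL]
                    congr 1
                    field_simp
                _ ≤ (U : ℝ) ^ (8 * ell / L) := by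
                    apply Real.rpow_le_rpow hy0.le _ (by positivity)
                    exact_mod_cast hyU
            rw [mul_one_div]
            apply div_le_div₀ (by positivity) hUyL (by positivity) h4
          have h5 : Real.log z ≤ L := by
            refine hlogz_le.trans ?_
            apply div_le_self hL0.le
            linarith
          have hw8 : (0 : ℝ) < (w : ℝ) ^ 8 := by positivity
          calc (U : ℝ) ^ (1 - 8 * ell / L) * (Real.exp 40 * Real.log z)
              ≤ (y * L * (1 / (w : ℝ) ^ 8)) * (Real.exp 40 * L) := by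
                apply mul_le_mul h3 _ (by positivity) (by positivity)
                exact mul_le_mul_of_nonneg_left h5 (Real.exp_pos _).le
            _ = y * (L ^ 2 * Real.exp 40 / (w : ℝ) ^ 8) := by
                field_simp
            _ ≤ y * (1 / (8 * L)) := by
                apply mul_le_mul_of_nonneg_left _ hy0.le
                rw [div_le_div_iff₀ hw8 (by positivity), one_mul]
                have h6 : L ≤ 2 * w := by
                  rw [hLdef]
                  nlinarith
                have h7 : L ^ 3 ≤ (2 * w) ^ 3 := pow_le_pow_left₀ hL0.le h6 3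
                have h8 := hgood.hw
                have h9 : L ^ 3 * Real.exp 40 ≤ (2 * w) ^ 3 * Real.exp 40 :=
                  mul_le_mul_of_nonneg_right h7 (Real.exp_pos _).le
                calc L ^ 2 * Real.exp 40 * (8 * L) = 8 * (L ^ 3 * Real.exp 40) := by ring
                  _ ≤ 8 * ((2 * w) ^ 3 * Real.exp 40) := by linarith
                  _ = 64 * Real.exp 40 * (w : ℝ) ^ 3 := by ring
                  _ ≤ _ := h8
            _ = y / (8 * L) := by ring
        · -- multiples of large primes
          have h2 := large_bound N1 hN12 hN1 U h hhN1 (by omega)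
          refine h2.trans ?_
          have h3 : Real.log ((U : ℝ) / h) ≤ 2 * ell - 1 := by
            have h4 : (U : ℝ) / h ≤ 6 * w := by
              rw [div_le_iff₀ hh0]
              have h5 : L ≤ 2 * w := by
                rw [hLdef]
                nlinarith
              calc (U : ℝ) ≤ y * L := hUyL
                _ ≤ (3 * h) * (2 * w) := by
                    apply mul_le_mul _ h5 hL0.le (by positivity)
                    linarith
                _ = 6 * w * h := by ring
            have h5 := Real.log_le_log (by positivity) h4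
            rw [Real.log_mul (by norm_num) (by linarith)] at h5
            have h6 : Real.log 6 ≤ 2 := by
              rw [Real.log_le_iff_le_exp (by norm_num)]
              have h7 : Real.exp 2 = Real.exp 1 * Real.exp 1 := by
                rw [← Real.exp_add]; norm_num
              rw [h7]
              have := Real.exp_one_gt_d9
              nlinarith
            linarith
          calc 2 * U / Real.log h * (1 + Real.log ((U : ℝ) / h))
              ≤ 2 * U / Real.log h * (2 * ell) := by
                apply mul_le_mul_of_nonneg_left (by linarith)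
                have : 0 < Real.log h := lt_of_lt_of_le (by positivity) hlogh
                positivity
            _ ≤ 2 * U / (L / 2) * (2 * ell) := by
                apply mul_le_mul_of_nonneg_right _ (by positivity)
                exact div_le_div_of_nonneg_left (by positivity) (by positivity) hlogh
            _ = 8 * U * ell / L := by
                field_simp
                ring
      have hQ3 := hN2 y hyN2
      rw [hyL] at hQ3
      refine le_trans ?_ hQ3
      calc _ ≤ (y / (8 * L) + 8 * U * ell / L) * Pi1 := mul_le_mul_of_nonneg_right hcard hPi0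
        _ = y / (8 * L) * Pi1 + 8 * U * ell / L * Pi1 := by ring
        _ ≤ y / (8 * L) * 1 + 8 * U * ell / L * (8000 * ell ^ 2 / L) := by
            apply add_le_add
            · exact mul_le_mul_of_nonneg_left hPi1 (by positivity)
            · exact mul_le_mul_of_nonneg_left hPi2 (by positivity)
        _ ≤ y / (8 * L) * 1 + 8 * (y * L / (512000 * ell ^ 3)) * ell / L
              * (8000 * ell ^ 2 / L) := by
            rw [hlen] at hUlen
            gcongr
        _ = y / (4 * L) := by
            field_simp
            ring)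
  obtain ⟨r, hr⟩ := hcover
  refine ⟨r, fun s hs1 hs2 => ?_⟩
  have hsU : s ≤ U := Nat.le_floor hs2
  obtain ⟨p, hp, hsp⟩ := hr s (Finset.mem_Icc.mpr ⟨hs1, hsU⟩)
  rw [Finset.mem_union, Finset.mem_union, Finset.mem_filter, Finset.mem_filter,
    Finset.mem_filter, mem_primesUpTo, mem_primesUpTo, mem_primesUpTo] at hp
  refine ⟨p, ?_, ?_, ?_, hsp⟩
  · rcases hp with (hp | hp) | hp <;> exact hp.1.1
  · rcases hp with (hp | hp) | hp
    · exact hp.2
    · omega
    · omega
  · rcases hp with (hp | hp) | hp
    · have := hp.1.2
      omega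
    · have := hp.1.2
      omega
    · exact hp.1.2

end Pool.Agent.Lib.H10.LPF
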