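import Pool.Agent.Lib.Sieve.Averages
import Pool.Agent.Lib.Helper57.Mertens

/-!
# Rankin's bound for smooth numbers
-/

namespace Pool.Agent.Lib.H10.LPF

open Finset
open Pool.Agent.Lib.Sieve
open Pool.Agent.Lib.Helper57

/-- `m ↦ m ^ (-s)` as a monoid homomorphism. -/
noncomputable def powHom (s : ℝ) : ℕ →* ℝ where
  toFun m := ((m : ℝ)) ^ (-s)
  map_one' := by simp
  map_mul' a b := by
    push_cast
    exact Real.mul_rpow (Nat.cast_nonneg a) (Nat.cast_nonneg b)

theorem powHom_apply (s : ℝ) (m : ℕ) : powHom s m = (m : ℝ) ^ (-s) := rfl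

/-- Rankin's inequality. -/
theorem rankin (s : ℝ) (hs : 0 < s) (z U : ℕ) :
    (((Finset.Icc 1 U).filter (fun n => ∀ p ∈ n.primeFactors, p ≤ z)).card : ℝ)
      ≤ (U : ℝ) ^ s * ∏ p ∈ primesUpTo z, (1 - (p : ℝ) ^ (-s))⁻¹ := by
  classical
  set A := (Finset.Icc 1 U).filter (fun n => ∀ p ∈ n.primeFactors, p ≤ z) with hA
  have hnorm : ∀ {p : ℕ}, p.Prime → ‖powHom s p‖ < 1 := by
    intro p hp
    have hp1 : (1 : ℝ) < p := by exact_mod_cast hp.one_lt
    rw [powHom_apply, Real.norm_eq_abs, abs_of_nonneg (Real.rpow_nonneg (by linarith) _)]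
    exact Real.rpow_lt_one_of_one_lt_of_neg hp1 (by linarith)
  have h1 := EulerProduct.summable_and_hasSum_smoothNumbers_prod_primesBelow_geometric
    (f := powHom s) hnorm (z + 1)
  obtain ⟨hsum, hhas⟩ := h1
  have h2 : ∏ p ∈ (z + 1).primesBelow, (1 - powHom s p)⁻¹
      = ∏ p ∈ primesUpTo z, (1 - (p : ℝ) ^ (-s))⁻¹ := rfl
  rw [h2] at hhas
  have h3 : ∑ m ∈ A, ((m : ℝ) ^ (-s)) ≤ ∏ p ∈ primesUpTo z, (1 - (p : ℝ) ^ (-s))⁻¹ := by
    let t : Finset (Nat.smoothNumbers (z + 1)) :=
      A.attach.map ⟨fun m => ⟨m.1, by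
        have hm := Finset.mem_filter.mp m.2
        have hm1 := Finset.mem_Icc.mp hm.1
        rw [Nat.mem_smoothNumbers]
        refine ⟨by omega, fun p hp => ?_⟩
        have hp' := Nat.prime_of_mem_primeFactorsList hp
        have := hm.2 p (Nat.mem_primeFactors.mpr
          ⟨hp', Nat.dvd_of_mem_primeFactorsList hp, by omega⟩)
        omega⟩, fun a b hab => by
        apply Subtype.ext
        exact congrArg (fun x => x.1) hab⟩
    have h4 := sum_le_hasSum t (fun i _ => by
      rw [powHom_apply]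
      positivity) hhas
    refine le_trans (le_of_eq ?_) h4
    rw [Finset.sum_map]
    simp only [Function.Embedding.coeFn_mk, powHom_apply]
    exact (Finset.sum_attach A fun m => ((m : ℝ) ^ (-s))).symm
  have h5 : (A.card : ℝ) ≤ (U : ℝ) ^ s * ∑ m ∈ A, ((m : ℝ) ^ (-s)) := by
    rw [Finset.mul_sum]
    have : (A.card : ℝ) = ∑ m ∈ A, (1 : ℝ) := by simp
    rw [this]
    refine Finset.sum_le_sum fun m hm => ?_
    have hm' := Finset.mem_Icc.mp (Finset.mem_filter.mp hm).1
    have hm0 : (0 : ℝ) < m := by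
      have : 0 < m := by omega
      exact_mod_cast this
    rw [Real.rpow_neg hm0.le, ← div_eq_mul_inv, le_div_iff₀ (Real.rpow_pos_of_pos hm0 _), one_mul]
    apply Real.rpow_le_rpow hm0.le _ hs.le
    exact_mod_cast hm'.2
  exact h5.trans (mul_le_mul_of_nonneg_left h3 (by positivity))

/-- The Euler product in Rankin's inequality. -/
theorem euler_le (z : ℕ) (hz : 2 ≤ z) (η : ℝ) (h0 : 0 < η) (h1 : η ≤ 1 / 10)
    (h2 : η * Real.log z ≤ 1) :
    ∏ p ∈ primesUpTo z, (1 - (p : ℝ) ^ (-(1 - η)))⁻¹ ≤ Real.exp 40 * Real.log z := by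
  have hz' : (2 : ℝ) ≤ z := by exact_mod_cast hz
  have hlogz : 0 < Real.log z := Real.log_pos (by linarith)
  have e1 : Real.exp 1 < 2.7182818286 := Real.exp_one_lt_d9
  -- bounds for one prime
  have key : ∀ p ∈ primesUpTo z, (1 - (p : ℝ) ^ (-(1 - η)))⁻¹ ≤
      Real.exp (1 / p + 3 * η * (Real.log p / p) + 24 * (1 / (p : ℝ) ^ 2)) := by
    intro p hp
    have hp' := mem_primesUpTo.mp hp
    have hp2 : (2 : ℝ) ≤ p := by exact_mod_cast hp'.1.two_le
    have hp0 : (0 : ℝ) < p := by linarith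
    have hpz : (p : ℝ) ≤ z := by exact_mod_cast hp'.2
    have hlogp : 0 < Real.log p := Real.log_pos (by linarith)
    have hlogpz : Real.log p ≤ Real.log z := Real.log_le_log hp0 hpz
    set t := (p : ℝ) ^ (-(1 - η)) with ht
    have htp : 0 < t := Real.rpow_pos_of_pos hp0 _
    have ht1 : t = (p : ℝ) ^ η / p := by
      rw [ht, show -(1 - η) = η - 1 by ring, Real.rpow_sub hp0, Real.rpow_one]
    have hx : (p : ℝ) ^ η = Real.exp (η * Real.log p) := by
      rw [Real.rpow_def_of_pos hp0, mul_comm]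
    have hx1 : η * Real.log p ≤ 1 := by nlinarith
    have hxe : Real.exp (η * Real.log p) ≤ Real.exp 1 := Real.exp_le_exp.mpr hx1
    -- `t ≤ 0.54`
    have ht2 : t ≤ 0.54 := by
      have : t ≤ (2 : ℝ) ^ (-(0.9 : ℝ)) := by
        rw [ht]
        calc (p : ℝ) ^ (-(1 - η)) ≤ (2 : ℝ) ^ (-(1 - η)) := by
              apply Real.rpow_le_rpow_of_nonpos (by norm_num) hp2
              linarith
          _ ≤ (2 : ℝ) ^ (-(0.9 : ℝ)) := by
              apply Real.rpow_le_rpow_of_exponent_le (by norm_num)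
              linarith
      refine this.trans ?_
      rw [Real.rpow_neg (by norm_num)]
      have h3 : (1.8519 : ℝ) ≤ (2 : ℝ) ^ (0.9 : ℝ) := by
        have : (2 : ℝ) ^ (0.9 : ℝ) = ((2 : ℝ) ^ (9 : ℕ)) ^ ((10 : ℕ) : ℝ)⁻¹ := by
          rw [← Real.rpow_natCast, ← Real.rpow_mul (by norm_num)]
          norm_num
        rw [this]
        calc (1.8519 : ℝ) = ((1.8519 : ℝ) ^ (10 : ℕ)) ^ ((10 : ℕ) : ℝ)⁻¹ :=
              (Real.pow_rpow_inv_natCast (by norm_num) (by norm_num)).symm
          _ ≤ ((2 : ℝ) ^ (9 : ℕ)) ^ ((10 : ℕ) : ℝ)⁻¹ := by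
              apply Real.rpow_le_rpow (by norm_num) (by norm_num) (by norm_num)
      rw [inv_le_comm₀ (by positivity) (by norm_num)]
      refine le_trans ?_ h3
      norm_num
    have h4 : 0 < 1 - t := by linarith
    rw [← Real.log_le_iff_le_exp (inv_pos.mpr h4), Real.log_inv]
    have h5 : -Real.log (1 - t) ≤ t + 3 * t ^ 2 := by
      rw [← Real.log_inv]
      have h6 := Real.log_le_sub_one_of_pos (inv_pos.mpr h4)
      refine h6.trans ?_
      rw [show (1 - t)⁻¹ - 1 = t / (1 - t) by field_simp; ring, div_le_iff₀ h4]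
      nlinarith [mul_nonneg htp.le htp.le, mul_nonneg (mul_nonneg htp.le htp.le) htp.le]
    refine h5.trans ?_
    -- first-order term
    have h7 : t ≤ 1 / p + 3 * η * (Real.log p / p) := by
      rw [ht1, hx]
      have h8 : Real.exp (η * Real.log p) ≤ 1 + 3 * (η * Real.log p) := by
        set x := η * Real.log p with hxdef
        have hx0 : 0 ≤ x := by positivity
        -- `exp x - 1 ≤ x exp x`
        have h9 : 1 - x ≤ Real.exp (-x) := by
          have := Real.add_one_le_exp (-x)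
          linarith
        have h10 : (1 - x) * Real.exp x ≤ 1 := by
          calc (1 - x) * Real.exp x ≤ Real.exp (-x) * Real.exp x :=
                mul_le_mul_of_nonneg_right h9 (Real.exp_pos _).le
            _ = 1 := by rw [← Real.exp_add]; simp
        have h11 : x * Real.exp x ≤ x * 3 := by
          apply mul_le_mul_of_nonneg_left _ hx0
          linarith
        linarith
      calc Real.exp (η * Real.log p) / p ≤ (1 + 3 * (η * Real.log p)) / p :=
            div_le_div_of_nonneg_right h8 hp0.le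
        _ = 1 / p + 3 * η * (Real.log p / p) := by ring
    have h12 : 3 * t ^ 2 ≤ 24 * (1 / (p : ℝ) ^ 2) := by
      rw [ht1, hx, div_pow]
      have h13 : Real.exp (η * Real.log p) ^ 2 ≤ 8 := by
        have : Real.exp (η * Real.log p) ≤ 2.7182818286 := by linarith
        have h0' := Real.exp_pos (η * Real.log p)
        nlinarith
      rw [← mul_div_assoc, ← mul_div_assoc, mul_one]
      apply div_le_div_of_nonneg_right _ (by positivity)
      linarith
    linarith
  have hpos : ∀ p ∈ primesUpTo z, 0 ≤ (1 - (p : ℝ) ^ (-(1 - η)))⁻¹ := by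
    intro p hp
    have hp' := mem_primesUpTo.mp hp
    have hp1 : (1 : ℝ) < p := by exact_mod_cast hp'.1.one_lt
    have := Real.rpow_lt_one_of_one_lt_of_neg hp1 (show -(1 - η) < 0 by linarith)
    rw [inv_nonneg]
    linarith
  calc ∏ p ∈ primesUpTo z, (1 - (p : ℝ) ^ (-(1 - η)))⁻¹
      ≤ ∏ p ∈ primesUpTo z,
        Real.exp (1 / p + 3 * η * (Real.log p / p) + 24 * (1 / (p : ℝ) ^ 2)) :=
        Finset.prod_le_prod hpos key
    _ = Real.exp (∑ p ∈ primesUpTo z, (1 : ℝ) / p + 3 * η * ∑ p ∈ primesUpTo z, Real.log p / p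
          + 24 * ∑ p ∈ primesUpTo z, 1 / (p : ℝ) ^ 2) := by
        rw [← Real.exp_sum, Finset.sum_add_distrib, Finset.sum_add_distrib, ← Finset.mul_sum,
          ← Finset.mul_sum]
    _ ≤ Real.exp (40 + Real.log (Real.log z)) := by
        apply Real.exp_le_exp.mpr
        have h5 := sum_inv_primes_le z hz
        have h6 := sum_inv_sq_primes_le (primesUpTo z) 1 le_rfl
          (fun p hp => (mem_primesUpTo.mp hp).1.one_lt)
        have h7 := sum_log_div_le z (by omega)
        have h8 : 3 * η * ∑ p ∈ primesUpTo z, Real.log p / p ≤ 3 + 0.3 * Real.log 4 := by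
          have h9 : η * (Real.log z + Real.log 4) ≤ 1 + 1 / 10 * Real.log 4 := by
            have : 0 ≤ Real.log 4 := Real.log_nonneg (by norm_num)
            nlinarith
          have h10 := mul_le_mul_of_nonneg_left h7 h0.le
          linarith
        have h9 : Real.log 4 ≤ 2 := by
          have : Real.log 4 = 2 * Real.log 2 := by
            rw [show (4 : ℝ) = 2 ^ 2 by norm_num, Real.log_pow]; norm_num
          have h2' := Real.log_two_lt_d9
          linarith
        norm_num at h6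
        simp only [one_div] at h5 h6 ⊢
        linarith
    _ = Real.exp 40 * Real.log z := by
        rw [Real.exp_add, Real.exp_log hlogz]

/-- Rankin's bound: there are at most `e^40 U^(1-η) log z` integers up to `U` all of whose
prime factors are at most `z`, when `z^η ≤ e`. -/
theorem smooth_le (z U : ℕ) (hz : 2 ≤ z) (η : ℝ) (h0 : 0 < η) (h1 : η ≤ 1 / 10)
    (h2 : η * Real.log z ≤ 1) :
    (((Finset.Icc 1 U).filter (fun n => ∀ p ∈ n.primeFactors, p ≤ z)).card : ℝ)
      ≤ (U : ℝ) ^ (1 - η) * (Real.exp 40 * Real.log z) :=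
  (rankin (1 - η) (by linarith) z U).trans
    (mul_le_mul_of_nonneg_left (euler_le z hz η h0 h1 h2) (by positivity))

end Pool.Agent.Lib.H10.LPF
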